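import Pool.Agent.T6.H86.DA.Final

/-!
# D'Arcais polynomials at nonzero integer multiples of `i`

`P_n (i t) ≠ 0` for every `n ≥ 0` and every nonzero integer `t`: the integer case (Q2) in full.
-/

set_option autoImplicit false

namespace Pool.Agent.Results.MP_d73f62_nt.IntegerCase

open Polynomial

/-- The D'Arcais polynomials: `P 0 = 1` and
`P (n + 1) = x / (n + 1) * ∑_{k = 0}^{n} σ(k + 1) P (n - k)`. -/
noncomputable def P : ℕ → ℚ[X]
  | 0 => 1
  | n + 1 => C (1 / ((n : ℚ) + 1)) * X * ∑ k : Fin (n + 1),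
      C (ArithmeticFunction.sigma 1 ((k : ℕ) + 1) : ℚ) * P (n - k)

lemma aeval_P (x : ℂ) (n : ℕ) : aeval x (P n) = Pool.Agent.T6.H86.DA.P x n := by
  induction n using Nat.strong_induction_on with
  | _ n ih =>
    cases n with
    | zero => simp [P, Pool.Agent.T6.H86.DA.P]
    | succ n =>
      rw [P, Pool.Agent.T6.H86.DA.P]
      simp only [map_mul, map_sum, aeval_C, aeval_X, map_div₀, map_one, map_add, map_natCast]
      rw [one_div, div_eq_mul_inv, mul_comm x]
      congr 1
      apply Finset.sum_congr rfl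
      intro k _
      rw [ih (n - k) (by omega)]

theorem result : ∀ (n : ℕ) (t : ℤ), t ≠ 0 → aeval (Complex.I * (t : ℂ)) (P n) ≠ 0 := by
  intro n t ht
  rw [aeval_P]
  exact Pool.Agent.T6.H86.DA.int_ne ht n

end Pool.Agent.Results.MP_d73f62_nt.IntegerCase
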